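import Pool.Agent.H3.PS.Stm

/-! Crew PS, part MT (helper42): mass transport. -/

set_option autoImplicit false

namespace Pool.Agent.H3.PS

open MeasureTheory ProbabilityTheory Filter Topology
open Pool.Agent.Helper581.Sand

namespace MTp

variable {d : ℕ}

lemma last_succ (a : (Fin d → ℤ) → ℤ) (t : ℕ) (x : Fin d → ℤ) :
    last a (t + 1) x = if 2 * (d : ℤ) ≤ run a t x then t + 1 else last a t x := rfl

lemma last_shift (a : (Fin d → ℤ) → ℤ) (v : Fin d → ℤ) (t : ℕ) (x : Fin d → ℤ) :
    last (fun y => a (y + v)) t x = last a t (x + v) := by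
  induction t with
  | zero => rfl
  | succ t ih => rw [last_succ, last_succ, run_shift, ih]

lemma od_shift (a : (Fin d → ℤ) → ℤ) (v : Fin d → ℤ) (t : ℕ) (x : Fin d → ℤ) :
    od (fun y => a (y + v)) t x = od a t (x + v) := by
  unfold od tp
  simp only [run_shift]

lemma last_zero_iff (a : (Fin d → ℤ) → ℤ) (t : ℕ) (x : Fin d → ℤ) :
    last a t x = 0 ↔ od a t x = 0 := by
  induction t with
  | zero => simp [last, od]
  | succ t ih =>
    have h1 : od a (t + 1) x = od a t x + tp (run a t) x := Finset.sum_range_succ _ _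
    have h0 := od_nonneg a t x
    rw [h1, last_succ]
    by_cases h : 2 * (d : ℤ) ≤ run a t x
    · have h2 : tp (run a t) x = 1 := if_pos h
      rw [if_pos h, h2]
      constructor
      · intro h3
        omega
      · intro h3
        omega
    · have h2 : tp (run a t) x = 0 := if_neg h
      rw [if_neg h, h2, add_zero]
      exact ih

lemma one_le_od {a : (Fin d → ℤ) → ℤ} {t : ℕ} {x : Fin d → ℤ} (h : 1 ≤ last a t x) :
    1 ≤ od a t x := by
  have h0 := od_nonneg a t x
  have h1 : od a t x ≠ 0 := fun h2 => by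
    rw [← last_zero_iff] at h2
    omega
  omega

lemma meas_last (t : ℕ) (x : Fin d → ℤ) :
    Measurable fun ω : (Fin d → ℤ) → ℕ => last (cf ω) t x := by
  induction t with
  | zero => exact measurable_const
  | succ t ih =>
    have h1 : (fun ω : (Fin d → ℤ) → ℕ => last (cf ω) (t + 1) x) =
        fun ω => if 2 * (d : ℤ) ≤ run (cf ω) t x then t + 1 else last (cf ω) t x := by
      funext ω
      rw [last_succ]
    rw [h1]
    exact Measurable.ite (measurableSet_le measurable_const (meas_run t x)) measurable_const ih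

lemma meas_od (t : ℕ) (x : Fin d → ℤ) :
    Measurable fun ω : (Fin d → ℤ) → ℕ => od (cf ω) t x := by
  unfold od tp
  refine Finset.measurable_sum _ fun s _ => ?_
  exact Measurable.ite (measurableSet_le measurable_const (meas_run s x)) measurable_const
    measurable_const

open Classical in
/-- the transported mass -/
noncomputable def GG (t : ℕ) (y z : Fin d → ℤ) (ω : (Fin d → ℤ) → ℕ) : ℝ :=
  (if 1 ≤ last (cf ω) t y ∧ last (cf ω) t y ≤ last (cf ω) t z then 1 else 0) -
    (if 1 ≤ last (cf ω) t y then ((od (cf ω) t z - od (cf ω) t y : ℤ) : ℝ) else 0)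

lemma GG_shift (t : ℕ) (y z v : Fin d → ℤ) (ω : (Fin d → ℤ) → ℕ) :
    GG t y z (shE v ω) = GG t (y + v) (z + v) ω := by
  unfold GG
  rw [cf_shE, last_shift, last_shift, od_shift, od_shift]

lemma GG_meas (t : ℕ) (y z : Fin d → ℤ) :
    Measurable (GG (d := d) t y z) := by
  unfold GG
  refine Measurable.sub ?_ ?_
  · refine Measurable.ite ?_ measurable_const measurable_const
    exact (measurableSet_le measurable_const (meas_last t y)).inter
      (measurableSet_le (meas_last t y) (meas_last t z))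
  · refine Measurable.ite (measurableSet_le measurable_const (meas_last t y)) ?_ measurable_const
    exact (Measurable.of_discrete (f := fun z : ℤ => (z : ℝ))).comp
      ((meas_od t z).sub (meas_od t y))

lemma GG_bound (t : ℕ) (y z : Fin d → ℤ) (ω : (Fin d → ℤ) → ℕ) :
    ‖GG t y z ω‖ ≤ 1 + t := by
  unfold GG
  have h1 := od_nonneg (cf ω) t z
  have h2 := od_le (cf ω) t z
  have h3 := od_nonneg (cf ω) t y
  have h4 := od_le (cf ω) t y
  have h5 : ‖((od (cf ω) t z - od (cf ω) t y : ℤ) : ℝ)‖ ≤ t := by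
    rw [Real.norm_eq_abs, abs_le]
    constructor
    · have : -(t : ℤ) ≤ od (cf ω) t z - od (cf ω) t y := by omega
      exact_mod_cast this
    · have : od (cf ω) t z - od (cf ω) t y ≤ t := by omega
      exact_mod_cast this
  refine (norm_sub_le _ _).trans (add_le_add ?_ ?_)
  · split_ifs <;> simp
  · split_ifs
    · exact h5
    · simp

lemma GG_int (ν : Measure ℕ) [IsProbabilityMeasure ν] (t : ℕ) (y z : Fin d → ℤ) :
    Integrable (GG (d := d) t y z) (fld d ν) := by
  refine (integrable_const (1 + t : ℝ)).mono' (GG_meas t y z).aestronglyMeasurable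
    (Filter.Eventually.of_forall fun ω => GG_bound t y z ω)

lemma GG_pair (t : ℕ) (y z : Fin d → ℤ) (ω : (Fin d → ℤ) → ℕ) :
    Set.indicator {ω | 1 ≤ last (cf ω) t y} (1 : ((Fin d → ℤ) → ℕ) → ℝ) ω ≤
      GG t y z ω + GG t z y ω := by
  have hy : last (cf ω) t y = 0 → od (cf ω) t y = 0 := (last_zero_iff _ _ _).1
  have hz : last (cf ω) t z = 0 → od (cf ω) t z = 0 := (last_zero_iff _ _ _).1
  by_cases h1 : 1 ≤ last (cf ω) t y
  · rw [Set.indicator_of_mem (show ω ∈ {ω | 1 ≤ last (cf ω) t y} from h1)]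
    have e1 := one_le_od h1
    by_cases h2 : 1 ≤ last (cf ω) t z
    · unfold GG
      rw [if_pos h1, if_pos h2]
      push_cast
      rcases le_total (last (cf ω) t y) (last (cf ω) t z) with h3 | h3
      · rw [if_pos ⟨h1, h3⟩]
        simp only [Pi.one_apply]
        split_ifs <;> linarith
      · rw [if_pos (show 1 ≤ last (cf ω) t z ∧ last (cf ω) t z ≤ last (cf ω) t y from ⟨h2, h3⟩)]
        simp only [Pi.one_apply]
        split_ifs <;> linarith
    · have h0 : last (cf ω) t z = 0 := by omega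
      unfold GG
      rw [if_pos h1, if_neg h2, if_neg (by omega), if_neg (by omega), hz h0]
      have e2 : (1 : ℝ) ≤ (od (cf ω) t y : ℝ) := by exact_mod_cast e1
      push_cast
      simp only [Pi.one_apply]
      linarith
  · rw [Set.indicator_of_notMem (show ω ∉ {ω | 1 ≤ last (cf ω) t y} from h1)]
    have h0 : last (cf ω) t y = 0 := by omega
    unfold GG
    rw [if_neg h1, if_neg (fun h => h1 h.1)]
    by_cases h2 : 1 ≤ last (cf ω) t z
    · have e1 := one_le_od h2
      have e2 : (1 : ℝ) ≤ (od (cf ω) t z : ℝ) := by exact_mod_cast e1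
      rw [if_pos h2, if_neg (by omega), hy h0]
      push_cast
      linarith
    · rw [if_neg h2, if_neg (fun h => h2 h.1)]
      simp

lemma GG_sum (hLAST : S_LAST) (t : ℕ) (ω : (Fin d → ℤ) → ℕ) :
    ∑ i : Fin d, (GG t 0 (0 + Pi.single i 1) ω + GG t 0 (0 - Pi.single i 1) ω) ≤
      Set.indicator {ω | 1 ≤ last (cf ω) t 0} (fun ω => (ω 0 : ℝ)) ω := by
  by_cases h1 : 1 ≤ last (cf ω) t 0
  · rw [Set.indicator_of_mem (show ω ∈ {ω | 1 ≤ last (cf ω) t 0} from h1)]
    have h2 := hLAST d (cf ω) (fun x => by unfold cf; positivity) t 0 h1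
    rw [run_eq] at h2
    have h3 : ∀ i : Fin d, GG t 0 (0 + Pi.single i 1) ω + GG t 0 (0 - Pi.single i 1) ω =
        (((if last (cf ω) t 0 ≤ last (cf ω) t (0 + Pi.single i 1) then (1 : ℤ) else 0) +
          (if last (cf ω) t 0 ≤ last (cf ω) t (0 - Pi.single i 1) then (1 : ℤ) else 0) -
          (od (cf ω) t (0 + Pi.single i 1) + od (cf ω) t (0 - Pi.single i 1)) +
          2 * od (cf ω) t 0 : ℤ) : ℝ) := by
      intro i
      unfold GG
      simp only [h1, true_and, if_true]
      push_cast
      split_ifs <;> push_cast <;> ring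
    rw [Finset.sum_congr rfl fun i _ => h3 i, ← Int.cast_sum]
    have h4 : ∑ i : Fin d, ((if last (cf ω) t 0 ≤ last (cf ω) t (0 + Pi.single i 1)
          then (1 : ℤ) else 0) +
          (if last (cf ω) t 0 ≤ last (cf ω) t (0 - Pi.single i 1) then (1 : ℤ) else 0) -
          (od (cf ω) t (0 + Pi.single i 1) + od (cf ω) t (0 - Pi.single i 1)) +
          2 * od (cf ω) t 0) ≤ cf ω 0 := by
      unfold lap at h2
      rw [Finset.sum_add_distrib, Finset.sum_sub_distrib, Finset.sum_const, Finset.card_univ,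
        Fintype.card_fin, nsmul_eq_mul]
      linarith
    have h5 : ((cf ω 0 : ℤ) : ℝ) = (ω 0 : ℝ) := by simp [cf]
    show _ ≤ (ω 0 : ℝ)
    rw [← h5]
    exact_mod_cast h4
  · rw [Set.indicator_of_notMem (show ω ∉ {ω | 1 ≤ last (cf ω) t 0} from h1)]
    refine le_of_eq (Finset.sum_eq_zero fun i _ => ?_)
    unfold GG
    rw [if_neg h1, if_neg h1, if_neg (fun h => h1 h.1), if_neg (fun h => h1 h.1)]
    simp

end MTp

open MTp in
theorem MT (hLAST : S_LAST) : S_MT := by
  intro d _ l t
  have hpf : poissonField d l = fld d (poissonMeasure l) := rfl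
  rw [hpf]
  have hmT : MeasurableSet {ω : (Fin d → ℤ) → ℕ | 1 ≤ last (cf ω) t 0} :=
    measurableSet_le measurable_const (meas_last t 0)
  have h1 : ∀ i : Fin d, (fld d (poissonMeasure l)).real
      {ω : (Fin d → ℤ) → ℕ | 1 ≤ last (cf ω) t 0} ≤
      ∫ ω, (GG t 0 (0 + Pi.single i 1) ω + GG t 0 (0 - Pi.single i 1) ω)
        ∂(fld d (poissonMeasure l)) := by
    intro i
    have e1 : ∫ ω, GG t 0 (0 - Pi.single i 1) ω ∂(fld d (poissonMeasure l)) =
        ∫ ω, GG t (0 + Pi.single i 1) 0 ω ∂(fld d (poissonMeasure l)) := by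
      rw [← (shE_mp (ν := poissonMeasure l) (Pi.single i 1)).integral_comp'
        (g := GG t 0 (0 - Pi.single i 1))]
      refine integral_congr_ae (Filter.Eventually.of_forall fun ω => ?_)
      show GG t 0 (0 - Pi.single i 1) (shE (Pi.single i 1) ω) = _
      rw [GG_shift, sub_add_cancel]
    rw [integral_add (GG_int _ t _ _) (GG_int _ t _ _), e1,
      ← integral_add (GG_int _ t _ _) (GG_int _ t _ _), ← integral_indicator_one hmT]
    refine integral_mono ?_ ((GG_int _ t _ _).add (GG_int _ t _ _)) fun ω => GG_pair t 0 _ ω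
    exact (integrable_const (1 : ℝ)).indicator hmT
  have h2 : (d : ℝ) * (fld d (poissonMeasure l)).real
      {ω : (Fin d → ℤ) → ℕ | 1 ≤ last (cf ω) t 0} ≤
      ∑ i : Fin d, ∫ ω, (GG t 0 (0 + Pi.single i 1) ω + GG t 0 (0 - Pi.single i 1) ω)
        ∂(fld d (poissonMeasure l)) := by
    calc (d : ℝ) * (fld d (poissonMeasure l)).real
          {ω : (Fin d → ℤ) → ℕ | 1 ≤ last (cf ω) t 0}
        = ∑ _i : Fin d, (fld d (poissonMeasure l)).real
          {ω : (Fin d → ℤ) → ℕ | 1 ≤ last (cf ω) t 0} := by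
          rw [Finset.sum_const, Finset.card_univ, Fintype.card_fin, nsmul_eq_mul]
      _ ≤ _ := Finset.sum_le_sum fun i _ => h1 i
  refine h2.trans ?_
  have hI : ∀ i ∈ (Finset.univ : Finset (Fin d)), Integrable (fun ω : (Fin d → ℤ) → ℕ =>
      GG t 0 (0 + Pi.single i 1) ω + GG t 0 (0 - Pi.single i 1) ω)
      (fld d (poissonMeasure l)) := fun i _ => (GG_int _ t _ _).add (GG_int _ t _ _)
  rw [← integral_finsetSum _ hI, ← integral_indicator hmT]
  refine integral_mono (integrable_finsetSum _ hI) ?_ fun ω => GG_sum hLAST t ω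
  exact (int_cf0 (pois_integrable l) 0).indicator hmT

end Pool.Agent.H3.PS
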